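import Pool.Agent.Helper635.LLL

/-!
MP_1d59ee_co (S07502).  Blueprint RT (helper31).

THEOREM (S_MAIN).  For some `d ≥ 4` every finite graph with maximum degree at most `d` and without `K_{d-1}`
is `(d-1)`-colourable.  (Weak form of Reed's theorem for one huge `d`.)  Then `K_{d-1}` is comparable
with every graph of maximum degree at most `d`.

All leaves: prove `theorem xxx : S_XXX` in the file `Pool/Agent/<you>/RT/<Name>.lean`, namespace
`Pool.Agent.Helper31K9.RT`.  Everything is classical (`open Classical`), only `[Fintype V]` is assumed.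
Colours are natural numbers `< d - 1`, or elements of `Fin (16 (d-1))`.
-/

set_option autoImplicit false

namespace Pool.Agent.Helper31K9.RT

open Classical
open Pool.Agent.Helper635.LLL (cnt ev)

/-- the neighbours of `v` -/
noncomputable def nb {V : Type} [Fintype V] (G : SimpleGraph V) (v : V) : Finset V :=
  Finset.univ.filter (fun w => G.Adj v w)

/-- number of ordered pairs of distinct non-adjacent neighbours of `v` -/
noncomputable def sp {V : Type} [Fintype V] (G : SimpleGraph V) (v : V) : ℕ :=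
  ((nb G v ×ˢ nb G v).filter (fun p => p.1 ≠ p.2 ∧ ¬ G.Adj p.1 p.2)).card

/-- a counterexample with the smallest number of vertices -/
structure Cex (V : Type) [Fintype V] (G : SimpleGraph V) (d : ℕ) : Prop where
  deg : ∀ v, (nb G v).card ≤ d
  free : G.CliqueFree (d - 1)
  ncol : ¬ G.Colorable (d - 1)
  min : ∀ (W : Type) [Fintype W] (H : SimpleGraph W), Fintype.card W < Fintype.card V →
    (∀ w, (nb H w).card ≤ d) → H.CliqueFree (d - 1) → H.Colorable (d - 1)

/-! ### extension of partial colourings -/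

/-- [EXT] `φ` is a proper colouring of the vertices in `A` with colours `< d - 1`.  For every `v ∉ A`:
(number of colours on the neighbours in `A`) + (number of neighbours outside `A`) `≤ d - 2 +` (number of
neighbours outside `A` with larger value of `f`).  Then `G` is `(d-1)`-colourable: colour the vertices outside `A`
greedily in the order of increasing `f` (ties in any order): when `v` is coloured, its neighbours outside `A` with larger
`f` have no colour yet, so at most `d - 2` colours are forbidden.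
(Suggestion: induction on the number of vertices outside `A`; colour a vertex `v ∉ A` with minimal `f v`, replace
`A` by `insert v A`.) -/
def S_EXT : Prop := ∀ (V : Type) [Fintype V] (G : SimpleGraph V) (d : ℕ) (A : Finset V) (φ : V → ℕ)
    (f : V → ℕ), (∀ v ∈ A, φ v < d - 1) → (∀ v ∈ A, ∀ w ∈ A, G.Adj v w → φ v ≠ φ w) →
  (∀ v, v ∉ A → ((nb G v ∩ A).image φ).card + (nb G v \ A).card + 2 ≤
    d + ((nb G v \ A).filter (fun w => f v < f w)).card) →
  G.Colorable (d - 1)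

/-- [SUB] in a minimal counterexample all proper induced subgraphs are `(d-1)`-colourable (apply `min` to the subgraph
induced on the type `{v // v ∉ D}`), and the degrees are at least `d - 1` (otherwise colour `G - v` and
extend, [EXT] with `A = univ \ {v}`, or by hand). -/
def S_SUB : Prop := S_EXT → ∀ (V : Type) [Fintype V] (G : SimpleGraph V) (d : ℕ), Cex V G d → 4 ≤ d →
  (∀ D : Finset V, D.Nonempty → ∃ φ : V → ℕ, (∀ v, v ∉ D → φ v < d - 1) ∧
    ∀ v, v ∉ D → ∀ w, w ∉ D → G.Adj v w → φ v ≠ φ w) ∧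
  ∀ v, d ≤ (nb G v).card + 1

/-! ### structure of a minimal counterexample -/

/-- the set of the vertices in `D` other than `a b a' b'` which are adjacent to all four of them -/
noncomputable def Zs {V : Type} [Fintype V] (G : SimpleGraph V) (D : Finset V) (a b a' b' : V) : Finset V :=
  D.filter (fun z => (z ≠ a ∧ z ≠ b ∧ z ≠ a' ∧ z ≠ b') ∧ G.Adj z a ∧ G.Adj z b ∧ G.Adj z a' ∧ G.Adj z b')

/-- [DD] two disjoint non-adjacent pairs `{a,b}`, `{a',b'}` in `D`.  Colour `G - D` ([SUB]).  Give `a, b` a common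
colour which does not appear on the neighbours of `a` and `b` outside `D`, then `a', b'` another common
colour (possible because of the two cardinality conditions).  Then [EXT] with `A = Dᶜ ∪ {a,b,a',b'}`, `f = 1` on `Zs`
and `0` elsewhere: a vertex of `Zs` sees at most `deg - 2 ≤ d - 2` colours / uncoloured neighbours, all
other vertices of `D` have two neighbours in `Zs`. -/
def S_DD : Prop := S_EXT → S_SUB → ∀ (V : Type) [Fintype V] (G : SimpleGraph V) (d : ℕ), Cex V G d → 4 ≤ d →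
  ∀ (D : Finset V) (a b a' b' : V), a ∈ D → b ∈ D → a' ∈ D → b' ∈ D → a ≠ b → a' ≠ b' → a ≠ a' → a ≠ b' →
  b ≠ a' → b ≠ b' → ¬ G.Adj a b → ¬ G.Adj a' b' →
  (nb G a \ D).card + (nb G b \ D).card + 3 ≤ d → (nb G a' \ D).card + (nb G b' \ D).card + 3 ≤ d →
  (∀ z ∈ D, (z ≠ a ∧ z ≠ b ∧ z ≠ a' ∧ z ≠ b') → z ∉ Zs G D a b a' b' →
    2 ≤ (nb G z ∩ Zs G D a b a' b').card) → False

/-- [TRI] three pairwise non-adjacent vertices of `D` such that all other vertices of `D` are adjacent to the three: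
colour `G - D`, give the three a common colour, colour the other vertices of `D` greedily ([EXT], `f = 0`:
they see at most `deg - 2` colours). -/
def S_TRI : Prop := S_EXT → S_SUB → ∀ (V : Type) [Fintype V] (G : SimpleGraph V) (d : ℕ), Cex V G d → 4 ≤ d →
  ∀ (D : Finset V) (x y z : V), x ∈ D → y ∈ D → z ∈ D → x ≠ y → x ≠ z → y ≠ z →
  ¬ G.Adj x y → ¬ G.Adj x z → ¬ G.Adj y z →
  (nb G x \ D).card + (nb G y \ D).card + (nb G z \ D).card + 2 ≤ d →
  (∀ w ∈ D, w ≠ x → w ≠ y → w ≠ z → G.Adj w x ∧ G.Adj w y ∧ G.Adj w z) → False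

/-- [BIG] a vertex with few non-adjacent pairs of neighbours lies in a clique of size at least `d - q - 1`.
Let `D = {v} ∪ {u ∈ nb v : u has fewer than q non-neighbours (≠ u) in nb v}`; then `|D| ≥ d - q + 1` and every vertex
of `D` has fewer than `q` non-neighbours in `D`.  By [DD] no two non-adjacent pairs in `D` are
disjoint.  So `D` is a clique, or `D` minus some non-adjacent pair `{a,b}` is a clique
(it contains `v`, as `v` is adjacent to all of `D`). -/
def S_BIG : Prop := S_EXT → S_SUB → S_DD → ∀ (V : Type) [Fintype V] (G : SimpleGraph V) (d q : ℕ), Cex V G d →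
  1 ≤ q → d = 100 * q → ∀ v, sp G v < q ^ 2 →
  ∃ K : Finset V, G.IsClique K ∧ v ∈ K ∧ d ≤ K.card + q + 1

/-- [FAM] (only the degree bound is used; big clique = clique `K` with `d ≤ |K| + q + 1`.)  Two big cliques that meet
have a common vertex `w`, `K ∪ K' ⊆ {w} ∪ nb w`, so `|K ∩ K'| ≥ |K| + |K'| - (d + 1)`.
`Max C`: `C` is a big clique and every clique `K` with `K ∩ C ≠ ∅` has `|K| ≤ |C|`.
For every big clique `K₀` the largest big clique `C` with `C ∩ K₀ ≠ ∅` has `Max C` (a larger clique meeting `C` would meet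
`K₀`).  `𝒞` = maximal family of pairwise disjoint `Max` cliques.  If `v` is in a big clique `K₀`, take this
`C` for `K₀`; it meets some `C' ∈ 𝒞` (or is in `𝒞`), hence `K₀ ∩ C' ≠ ∅`, `|K₀ ∩ C'| ≥ d - 2q - 3`. -/
def S_FAM : Prop := ∀ (V : Type) [Fintype V] (G : SimpleGraph V) (d q : ℕ), 1 ≤ q → d = 100 * q →
  (∀ v, (nb G v).card ≤ d) →
  ∃ 𝒞 : Finset (Finset V), (∀ C ∈ 𝒞, G.IsClique (C : Set V) ∧ d ≤ C.card + q + 1 ∧
      ∀ K : Finset V, G.IsClique (K : Set V) → (K ∩ C).Nonempty → K.card ≤ C.card) ∧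
    (∀ C ∈ 𝒞, ∀ C' ∈ 𝒞, C ≠ C' → Disjoint C C') ∧
    ∀ v, (∃ K : Finset V, G.IsClique (K : Set V) ∧ v ∈ K ∧ d ≤ K.card + q + 1) →
      ∃ C ∈ 𝒞, v ∈ C ∨ d ≤ (nb G v ∩ C).card + 2 * q + 3

/-- [HEA] at most one vertex outside `C` has more than about half of `C` as neighbours.  Suppose `x ≠ x' ∉ C` have together
at least `|C| + 4` neighbours in `C`, and each at least `d + 4 - |C|`.  Both have a non-neighbour in `C` (else
`insert x C` is a larger clique).  If there are non-neighbours `z` of `x`, `z'` of `x'` with `z ≠ z'`: [DD] with `D = C ∪ {x,x'}` and the pairs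
`{x,z}`, `{x',z'}` (`Zs` ⊇ common neighbours of `x, x'` in `C`, at least four of them).  Otherwise both
are adjacent to all of `C` but the same `z`: if `x ~ x'` then `C \ {z} ∪ {x,x'}` is a larger clique
meeting `C`, if not then [TRI] with `D = C ∪ {x,x'}`. -/
def S_HEA : Prop := S_EXT → S_SUB → S_DD → S_TRI → ∀ (V : Type) [Fintype V] (G : SimpleGraph V) (d q : ℕ),
  Cex V G d → 1 ≤ q → d = 100 * q → ∀ C : Finset V, G.IsClique (C : Set V) → d ≤ C.card + q + 1 →
  (∀ K : Finset V, G.IsClique (K : Set V) → (K ∩ C).Nonempty → K.card ≤ C.card) →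
  ∀ x x' : V, x ∉ C → x' ∉ C → x ≠ x' → d + 4 ≤ (nb G x ∩ C).card + C.card →
    d + 4 ≤ (nb G x' ∩ C).card + C.card → (nb G x ∩ C).card + (nb G x' ∩ C).card ≤ C.card + 3

/-- [HALL] lists for a clique.  `C` is a clique, `|C| + k = d`, `φ` is a proper colouring of `G - C` with colours
`< d - 1`.  If the colouring cannot be extended to `C` (and `G` is not colourable), then there are a
set `A ⊆ C` and a set `B` of colours `< d - 1` with `B ⊆ φ(nb u \ C)` for all `u ∈ A` and `|B| + |A| ≥ d`.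
(Hall's theorem `Finset.all_card_le_biUnion_card_iff_exists_injective` for the lists
`L u = range (d-1) \ φ(nb u \ C)`, `u ∈ C`; `B` = complement of the union of the lists over a bad set `A`.) -/
def S_HALL : Prop := ∀ (V : Type) [Fintype V] (G : SimpleGraph V) (d : ℕ), 4 ≤ d → ¬ G.Colorable (d - 1) →
  ∀ (C : Finset V) (φ : V → ℕ), G.IsClique (C : Set V) → (∀ v, v ∉ C → φ v < d - 1) →
  (∀ v, v ∉ C → ∀ w, w ∉ C → G.Adj v w → φ v ≠ φ w) →
  ∃ (A : Finset V) (B : Finset ℕ), A.Nonempty ∧ A ⊆ C ∧ (∀ u ∈ A, B ⊆ (nb G u \ C).image φ) ∧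
    d ≤ B.card + A.card

/-- [GPR] the modified graph.  `C` a non-empty set, `x ≠ x'` outside `C`, `S, S'` disjoint subsets of `C`, all vertices
of `S` are not adjacent to `x`, all of `S'` not to `x'`.  Add to `G - C` the edges from `x` to all
neighbours (outside `C`) of the vertices of `S`, and from `x'` to all neighbours of the vertices of `S'`.  If
`x, x'` have many neighbours in `C` then the new graph (on the type `{v // v ∉ C}`) has maximum degree `≤ d` (a vertex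
`y ≠ x, x'` gets at most as many new edges as it has neighbours in `S ∪ S' ⊆ C` as
`S ∩ S' = ∅`), and has no `K_{d-1}`: such a clique would contain `x` or `x'`, whose new degree is `≤ d - 3`.
So by `min` it is `(d-1)`-colourable. -/
def S_GPR : Prop := ∀ (V : Type) [Fintype V] (G : SimpleGraph V) (d : ℕ), Cex V G d → 4 ≤ d →
  ∀ (C S S' : Finset V) (x x' : V), C.Nonempty → x ∉ C → x' ∉ C → x ≠ x' → S ⊆ C → S' ⊆ C → Disjoint S S' →
  (∀ u ∈ S, ¬ G.Adj u x) → (∀ u ∈ S', ¬ G.Adj u x') →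
  (∑ u ∈ S, (nb G u \ C).card) + 4 ≤ (nb G x ∩ C).card →
  (∑ u ∈ S', (nb G u \ C).card) + 4 ≤ (nb G x' ∩ C).card →
  ∃ φ : V → ℕ, (∀ v, v ∉ C → φ v < d - 1) ∧ (∀ v, v ∉ C → ∀ w, w ∉ C → G.Adj v w → φ v ≠ φ w) ∧
    (∀ u ∈ S, φ x ∉ (nb G u \ C).image φ) ∧ (∀ u ∈ S', φ x' ∉ (nb G u \ C).image φ)

/-- [CLM] every `u ∈ C` has at most one neighbour `x ∉ C` with at least `2k+6` neighbours in `C`, where `|C| + k = d`.
Suppose `x, x'` are two of them.  By [HEA] one of them, say `x`, has at least three non-neighbours in `C`.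
Choose `z ∈ C` not adjacent to `x'` and `u₂ ≠ u₃ ∈ C \ {z}` not adjacent to `x`.  [GPR] with `S = {u₂,u₃}`, `S' = {z}`
(`|nb u \ C| ≤ k + 1` for `u ∈ C`), then [HALL]: `A, B` with `|B| ≥ d - |A|`; as `|B| ≤ k + 1`, `|A| ≥ |C| - 1`.
If `A = C`: `|B| ≥ k`, `φ x, φ x' ∉ B`, but `B ⊆ φ(nb u \ C)`, so `|B| ≤ k + 1 - 2`.  If `|A| = |C| - 1`: `|B| ≥ k+1`, so
`B = φ(nb w \ C)` for all `w ∈ A`; some `w ∈ A` is adjacent to `x`, so `φ x ∈ B`, and `u₂` or `u₃` is in `A`, so
`φ x ∉ B`. -/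
def S_CLM : Prop := S_EXT → S_SUB → S_DD → S_TRI → S_HEA → S_HALL → S_GPR →
  ∀ (V : Type) [Fintype V] (G : SimpleGraph V) (d q k : ℕ),
  Cex V G d → 1 ≤ q → d = 100 * q → ∀ C : Finset V, G.IsClique (C : Set V) → d ≤ C.card + q + 1 →
  (∀ K : Finset V, G.IsClique (K : Set V) → (K ∩ C).Nonempty → K.card ≤ C.card) → C.card + k = d → 2 ≤ k →
  ∀ u ∈ C, ∀ x ∈ nb G u \ C, ∀ x' ∈ nb G u \ C, x ≠ x' →
    (nb G x ∩ C).card ≤ 2 * k + 5 ∨ (nb G x' ∩ C).card ≤ 2 * k + 5

/-- [SEL] choice of many `u ∈ C` with pairwise disjoint sets `X u` of `2 - (d - deg u)` neighbours outside `C`, each of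
which has at most `2k+5` neighbours in `C`.  Take a family with `|U|` maximal.  A vertex `u ∈ C \ U` has at least
`|nb u \ C| - 1 = k - 2 + (2 - (d - deg u))` candidates, and cannot be added, so at least `k - 1` of its
candidates are in `Y = ⋃ X`, `|Y| ≤ 2|U|`: `(|C| - |U|)(k-1) ≤ 2|U|(2k+5) ≤ 18 |U| (k-1)`. -/
def S_SEL : Prop := ∀ (V : Type) [Fintype V] (G : SimpleGraph V) (d k : ℕ), (∀ v, (nb G v).card ≤ d) →
  (∀ v, d ≤ (nb G v).card + 1) → ∀ C : Finset V, G.IsClique (C : Set V) → C.card + k = d → 2 ≤ k →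
  (∀ u ∈ C, ∀ x ∈ nb G u \ C, ∀ x' ∈ nb G u \ C, x ≠ x' →
    (nb G x ∩ C).card ≤ 2 * k + 5 ∨ (nb G x' ∩ C).card ≤ 2 * k + 5) →
  ∃ (U : Finset V) (X : V → Finset V), U ⊆ C ∧ C.card ≤ 19 * U.card ∧
    (∀ u ∈ U, X u ⊆ nb G u \ C ∧ (X u).card + d = (nb G u).card + 2 ∧
      ∀ x ∈ X u, (nb G x ∩ C).card ≤ 2 * k + 5) ∧
    ∀ u ∈ U, ∀ u' ∈ U, u ≠ u' → Disjoint (X u) (X u')

/-- what the random colouring needs to know about the cliques -/
structure CData {V : Type} [Fintype V] (G : SimpleGraph V) (d q : ℕ) (C U : Finset V) (X : V → Finset V) :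
    Prop where
  cl : G.IsClique (C : Set V)
  big : d ≤ C.card + q + 1
  small : C.card + 2 ≤ d
  sub : U ⊆ C
  many : C.card ≤ 19 * U.card
  Xsub : ∀ u ∈ U, X u ⊆ nb G u \ C
  Xcard : ∀ u ∈ U, (X u).card + d = (nb G u).card + 2
  Xfew : ∀ u ∈ U, ∀ x ∈ X u, (nb G x ∩ C).card ≤ 2 * q + 7
  disj : ∀ u ∈ U, ∀ u' ∈ U, u ≠ u' → Disjoint (X u) (X u')

/-- structure of a minimal counterexample -/
structure Str (V : Type) [Fintype V] (G : SimpleGraph V) (d q : ℕ) (𝒞 : Finset (Finset V))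
    (U : Finset V → Finset V) (X : Finset V → V → Finset V) : Prop where
  deg : ∀ v, (nb G v).card ≤ d
  deg' : ∀ v, d ≤ (nb G v).card + 1
  data : ∀ C ∈ 𝒞, CData G d q C (U C) (X C)
  disj : ∀ C ∈ 𝒞, ∀ C' ∈ 𝒞, C ≠ C' → Disjoint C C'
  rest : ∀ v, (∃ C ∈ 𝒞, v ∈ C) ∨ q ^ 2 ≤ sp G v ∨ ∃ C ∈ 𝒞, d ≤ (nb G v ∩ C).card + 2 * q + 3

/-- [STR] assembly of the structure theorem. -/
def S_STR : Prop := S_EXT → S_SUB → S_DD → S_TRI → S_BIG → S_FAM → S_HEA → S_HALL → S_GPR → S_CLM → S_SEL →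
  ∀ (V : Type) [Fintype V] (G : SimpleGraph V) (d q : ℕ), Cex V G d → 1 ≤ q → d = 100 * q →
  ∃ 𝒞 U X, Str V G d q 𝒞 U X

/-! ### random colourings -/

/-- the colours: `Fin (16 (d-1))`; the colours `< d - 1` are the real ones -/
abbrev Col (d : ℕ) : Type := Fin (16 * (d - 1))

/-- `v` has a real colour -/
def act {V : Type} {d : ℕ} (c : V → Col d) (v : V) : Prop := (c v : ℕ) < d - 1

/-- `v` has a real colour which is not the colour of a neighbour -/
def ret {V : Type} (G : SimpleGraph V) {d : ℕ} (c : V → Col d) (v : V) : Prop :=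
  act c v ∧ ∀ w, G.Adj v w → c w ≠ c v

/-- the vertices which keep their colour -/
noncomputable def RA {V : Type} [Fintype V] (G : SimpleGraph V) {d : ℕ} (c : V → Col d) : Finset V :=
  Finset.univ.filter (fun v => ret G c v)

/-- number of the colours kept by two neighbours of `v` -/
noncomputable def fv {V : Type} [Fintype V] (G : SimpleGraph V) {d : ℕ} (c : V → Col d) (v : V) : ℕ :=
  ((Finset.range (d - 1)).filter (fun γ => ∃ x ∈ nb G v, ∃ y ∈ nb G v, x ≠ y ∧ (c x : ℕ) = γ ∧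
    (c y : ℕ) = γ ∧ ret G c x ∧ ret G c y)).card

/-- all coordinates of the clique event that are resampled -/
noncomputable def T0 {V : Type} (C U : Finset V) (X : V → Finset V) : Finset V := C ∪ U.biUnion X

/-- `x` has the same real colour as exactly one `u' ∈ C`, not adjacent to `x`, nobody else in `T` has this colour, and
nobody outside `T` adjacent to `x` or `u'` has it -/
def succ {V : Type} (G : SimpleGraph V) {d : ℕ} (C T : Finset V) (c : V → Col d) (x : V) : Prop :=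
  act c x ∧ ∃ u' ∈ C, u' ≠ x ∧ ¬ G.Adj x u' ∧ c u' = c x ∧ (∀ w ∈ T, w ≠ x → w ≠ u' → c w ≠ c x) ∧
    ∀ w, w ∉ T → (G.Adj x w ∨ G.Adj u' w) → c w ≠ c x

/-- number of the `u ∈ U` without real colour for which all `x ∈ X u` are successful -/
noncomputable def gC {V : Type} (G : SimpleGraph V) {d : ℕ} (C U : Finset V) (X : V → Finset V)
    (c : V → Col d) : ℕ :=
  (U.filter (fun u => ¬ act c u ∧ ∀ x ∈ X u, succ G C (T0 C U X) c x)).card

/-- few outer neighbours with real colours -/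
def Out {V : Type} [Fintype V] (G : SimpleGraph V) (q : ℕ) {d : ℕ} (T : Finset V) (c : V → Col d) : Prop :=
  ∀ x ∈ T, ((nb G x \ T).filter (fun w => act c w)).card ≤ 12 * q

/-- coordinates in `T₀` from `ω'`, the others from `ω` -/
noncomputable def glue {T C : Type} (T₀ : Finset T) (ω ω' : T → C) : T → C :=
  fun t => if t ∈ T₀ then ω' t else ω t

/-- [MCD] McDiarmid's inequality, weak constant.  By induction on the coordinates
`E exp(μ (f - E f)) ≤ exp(μ² ∑ L_i²)` from `e^x ≤ x + e^(x²)` (all real `x`); then Markov with `μ = -t / (2 ∑ L²)`. -/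
def S_MCD : Prop := ∀ (T C : Type) [Fintype T] [Fintype C] [Nonempty C] (f : (T → C) → ℝ) (L : T → ℝ) (m t : ℝ),
  (∀ i, 0 ≤ L i) → (∀ ω ω' : T → C, ∀ i, (∀ j, j ≠ i → ω j = ω' j) → |f ω - f ω'| ≤ L i) →
  m * Fintype.card (T → C) ≤ ∑ ω, f ω → 0 ≤ t → 0 < ∑ i, L i ^ 2 →
  (cnt (fun ω => f ω ≤ m - t) : ℝ) ≤ Real.exp (-(t ^ 2) / (4 * ∑ i, L i ^ 2)) * Fintype.card (T → C)

/-- [CND] conditional version: for every `ω` with `Out ω` (which depends on the coordinates outside `T₀` only) the mean of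
`f` over the coordinates in `T₀` is at least `m`.  For fixed `ω` apply [MCD] to `ω' ↦ f (glue T₀ ω ω')` (it does
not depend on the coordinates outside `T₀`), then count pairs `(ω, ω')` with the bijection
`Pool.Agent.Helper635.LLL.swap`. -/
def S_CND : Prop := S_MCD → ∀ (T C : Type) [Fintype T] [Fintype C] [Nonempty C] (T₀ : Finset T)
    (O : (T → C) → Prop) (f : (T → C) → ℝ) (L m t : ℝ),
  (∀ ω ω' : T → C, (∀ i, i ∉ T₀ → ω i = ω' i) → O ω → O ω') → 0 < L → T₀.Nonempty →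
  (∀ ω ω' : T → C, ∀ i ∈ T₀, (∀ j, j ≠ i → ω j = ω' j) → |f ω - f ω'| ≤ L) →
  (∀ ω, O ω → m * Fintype.card (T → C) ≤ ∑ ω', f (glue T₀ ω ω')) → 0 ≤ t →
  (cnt (fun ω => O ω ∧ f ω ≤ m - t) : ℝ) ≤
    Real.exp (-(t ^ 2) / (4 * T₀.card * L ^ 2)) * Fintype.card (T → C)

/-- [PRD] counting a box. -/
def S_PRD : Prop := ∀ (T C : Type) [Fintype T] [Fintype C] (T₀ : Finset T) (S : T → Finset C),
  cnt (fun ω : T → C => ∀ t ∈ T₀, ω t ∈ S t) * Fintype.card C ^ T₀.card =
    (∏ t ∈ T₀, (S t).card) * Fintype.card (T → C)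

/-- [LI2] changing one coordinate changes `fv` by at most 2 (only the old and the new colour are affected). -/
def S_LI2 : Prop := ∀ (V : Type) [Fintype V] (G : SimpleGraph V) (d : ℕ) (v i : V) (c c' : V → Col d),
  (∀ j, j ≠ i → c j = c' j) → |(fv G c v : ℝ) - (fv G c' v : ℝ)| ≤ 2

/-- [LI3] changing one coordinate changes `gC` by at most 5: for each colour at most one `x ∈ ⋃ X u` is successful with
this colour, the `X u` are disjoint; and `u = i` itself. -/
def S_LI3 : Prop := ∀ (V : Type) [Fintype V] (G : SimpleGraph V) (d : ℕ) (C U : Finset V) (X : V → Finset V),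
  U ⊆ C → (∀ u ∈ U, Disjoint (X u) C) → (∀ u ∈ U, ∀ u' ∈ U, u ≠ u' → Disjoint (X u) (X u')) →
  ∀ (i : V) (c c' : V → Col d), (∀ j, j ≠ i → c j = c' j) →
  |(gC G C U X c : ℝ) - (gC G C U X c' : ℝ)| ≤ 5

/-- [BLK] at least `d - 1 - 24 q` real colours are not used by outer neighbours of `x` or `y`. -/
def S_BLK : Prop := ∀ (V : Type) [Fintype V] (G : SimpleGraph V) (d q : ℕ) (T : Finset V) (c : V → Col d),
  Out G q T c → ∀ x ∈ T, ∀ y ∈ T, d - 1 ≤ 24 * q + (Finset.univ.filter (fun γ : Col d =>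
    (γ : ℕ) < d - 1 ∧ ∀ w, w ∉ T → (G.Adj x w ∨ G.Adj y w) → c w ≠ γ)).card

/-- [EX2] conditional mean of `fv`.  `N = nb v`, `n = |N| ≤ d`, `K = 16(d-1) ≤ 1600 q`.  For fixed outer colours `ω` and
an ordered pair `(x,y)` of non-adjacent vertices of `N` at least `d - 1 - 24 q ≥ 75 q` real colours `γ` are not colours of
outer neighbours of `x` or `y` ([BLK]); for those, `ω' x = ω' y = γ` and `ω' z ≠ γ` for the other `z ∈ N` has
probability `K⁻² (1-1/K)^(n-2) ≥ 0.9 K⁻²` (Bernoulli, `n/K ≤ 100q/(1599q)`), these events are disjoint for different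
unordered pairs and the same `γ`, and then `γ` is counted in `fv`.  Sum `≥ (q²/2) (75 q) · 0.9 / (1600 q)² ≥ q / 10^5`. -/
def S_EX2 : Prop := S_PRD → S_BLK → ∀ (V : Type) [Fintype V] (G : SimpleGraph V) (d q : ℕ), 100 ≤ q →
  d = 100 * q → (∀ v, (nb G v).card ≤ d) → ∀ v, q ^ 2 ≤ sp G v → ∀ ω : V → Col d, Out G q (nb G v) ω →
  (q : ℝ) / 10 ^ 5 * Fintype.card (V → Col d) ≤ ∑ ω' : V → Col d, (fv G (glue (nb G v) ω ω') v : ℝ)

/-- [X1] probability that `u` has no real colour and `x` is successful.  Choose `u' ∈ C \ {u}` not adjacent to `x` (at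
least `96q` choices, note that `C` has at least `99q - 1` elements) and a real colour `γ` which is not a
colour of an outer neighbour of `x` or `u'` (`≥ 75 q` choices, [BLK]); the event `c x = c u' = γ`, `u` not real, all
others in `T` different from `γ` has probability `K⁻² (15/16) (1-1/K)^(|T|-3)`, and these events are disjoint. -/
def S_X1 : Prop := S_PRD → S_BLK → ∀ (V : Type) [Fintype V] (G : SimpleGraph V) (d q : ℕ), 100 ≤ q →
  d = 100 * q → ∀ (C T : Finset V) (u x : V), u ∈ C → C ⊆ T → x ∈ T → x ∉ C → G.Adj u x → T.card ≤ 300 * q →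
  d ≤ C.card + q + 1 → (nb G x ∩ C).card ≤ 2 * q + 7 → ∀ ω : V → Col d, Out G q T ω →
  (4 : ℝ) / 10 ^ 6 * Fintype.card (V → Col d) ≤ (cnt (fun ω' : V → Col d =>
    ¬ act (glue T ω ω') u ∧ succ G C T (glue T ω ω') x) : ℝ)

/-- [X2] the same for two vertices `x ≠ y`.  Choose `u₁ ≠ u₂ ∈ C \ {u}` with `u₁` not adjacent to `x`, `u₂` not adjacent
to `y` (at least `96q`, `95q` choices), and different real colours `γ₁ ≠ γ₂` ([BLK], at least `75q`, `74q` choices);
the event `c x = c u₁ = γ₁`, `c y = c u₂ = γ₂`, `u` not real, all others of `T` not in `{γ₁,γ₂}` has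
probability `K⁻⁴ (15/16) (1-2/K)^(|T|-5) ≥ 0.585 K⁻⁴` (`|T| ≤ 300 q`, `1599 q ≤ K ≤ 1600 q`), and these
events are disjoint (`γ₁ = c x`, `u₁` = the vertex of `C` with this colour, ...):
`96·95·75·74·0.585/1600⁴ ≥ 4.5·10⁻⁶`. -/
def S_X2 : Prop := S_PRD → S_BLK → ∀ (V : Type) [Fintype V] (G : SimpleGraph V) (d q : ℕ), 100 ≤ q →
  d = 100 * q → ∀ (C T : Finset V) (u x y : V), u ∈ C → C ⊆ T → x ∈ T → x ∉ C → y ∈ T → y ∉ C → x ≠ y →
  G.Adj u x → G.Adj u y → T.card ≤ 300 * q → d ≤ C.card + q + 1 → (nb G x ∩ C).card ≤ 2 * q + 7 →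
  (nb G y ∩ C).card ≤ 2 * q + 7 → ∀ ω : V → Col d, Out G q T ω →
  (4 : ℝ) / 10 ^ 6 * Fintype.card (V → Col d) ≤ (cnt (fun ω' : V → Col d =>
    ¬ act (glue T ω ω') u ∧ succ G C T (glue T ω ω') x ∧ succ G C T (glue T ω ω') y) : ℝ)

/-- [EX3a] one `u ∈ U`: from [X1] (`|X u| = 1`) and [X2] (`|X u| = 2`) with `T = T0 C U X`. -/
def S_EX3a : Prop := S_PRD → S_BLK → S_X1 → S_X2 → ∀ (V : Type) [Fintype V] (G : SimpleGraph V) (d q : ℕ),
  100 ≤ q → d = 100 * q → (∀ v, (nb G v).card ≤ d) → (∀ v, d ≤ (nb G v).card + 1) →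
  ∀ (C U : Finset V) (X : V → Finset V), CData G d q C U X →
  ∀ ω : V → Col d, Out G q (T0 C U X) ω → ∀ u ∈ U,
  (4 : ℝ) / 10 ^ 6 * Fintype.card (V → Col d) ≤ (cnt (fun ω' : V → Col d =>
    ¬ act (glue (T0 C U X) ω ω') u ∧ ∀ x ∈ X u, succ G C (T0 C U X) (glue (T0 C U X) ω ω') x) : ℝ)

/-- [EX3] conditional mean of `gC`: sum of [EX3a] over `u ∈ U`, `|U| ≥ |C|/19 ≥ 98q/19 ≥ 5q`. -/
def S_EX3 : Prop := S_PRD → S_BLK → S_X1 → S_X2 → S_EX3a → ∀ (V : Type) [Fintype V] (G : SimpleGraph V) (d q : ℕ), 100 ≤ q →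
  d = 100 * q → (∀ v, (nb G v).card ≤ d) → (∀ v, d ≤ (nb G v).card + 1) →
  ∀ (C U : Finset V) (X : V → Finset V), CData G d q C U X →
  ∀ ω : V → Col d, Out G q (T0 C U X) ω →
  (q : ℝ) / 10 ^ 5 * Fintype.card (V → Col d) ≤
    ∑ ω' : V → Col d, (gC G C U X (glue (T0 C U X) ω ω') : ℝ)

/-- [PE1] many real colours among the neighbours of `v` is unlikely: [MCD] for
`f c = -(number of the neighbours with a real colour)`, `L = 1` on `nb v` and `0` elsewhere, mean
`-|nb v|/16 ≥ -6.25 q`, `t = 5.75 q` (or a direct proof).  `exp(-q²·5.75²/(400 q)) ≤ exp(-q/10^16)`. -/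
def S_PE1 : Prop := S_MCD → ∀ (V : Type) [Fintype V] (G : SimpleGraph V) (d q : ℕ), 100 ≤ q → d = 100 * q →
  (∀ v, (nb G v).card ≤ d) → ∀ v : V,
  (cnt (fun c : V → Col d => 12 * q < ((nb G v).filter (fun w => act c w)).card) : ℝ) ≤
    Real.exp (-(q : ℝ) / 10 ^ 16) * Fintype.card (V → Col d)

/-- [PE2] [CND] with `T₀ = nb v`, `f = fv`, `L = 2`, `m = q/10^5`, `t = q/10^5 - 3/2 ≥ q/(2·10^5)`. -/
def S_PE2 : Prop := S_MCD → S_CND → S_PRD → S_BLK → S_LI2 → S_EX2 →
  ∀ (V : Type) [Fintype V] (G : SimpleGraph V) (d q : ℕ), 10 ^ 6 ≤ q → d = 100 * q →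
  (∀ v, (nb G v).card ≤ d) → ∀ v : V, q ^ 2 ≤ sp G v →
  (cnt (fun c : V → Col d => Out G q (nb G v) c ∧ fv G c v < 2) : ℝ) ≤
    Real.exp (-(q : ℝ) / 10 ^ 16) * Fintype.card (V → Col d)

/-- [PE3] [CND] with `T₀ = T0 C U X` (`|T₀| ≤ 3|C| ≤ 300q`), `f = gC`, `L = 5`, `m = q/10^5`,
`t = q/10^5 - 3/2 ≥ q/(2·10^5)`: `t²/(4·300q·25) ≥ q/(1.2·10^15)`. -/
def S_PE3 : Prop := S_MCD → S_CND → S_PRD → S_BLK → S_X1 → S_X2 → S_LI3 → S_EX3a → S_EX3 →
  ∀ (V : Type) [Fintype V] (G : SimpleGraph V) (d q : ℕ), 10 ^ 6 ≤ q → d = 100 * q →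
  (∀ v, (nb G v).card ≤ d) → (∀ v, d ≤ (nb G v).card + 1) →
  ∀ (C U : Finset V) (X : V → Finset V), CData G d q C U X →
  (cnt (fun c : V → Col d => Out G q (T0 C U X) c ∧ gC G C U X c < 2) : ℝ) ≤
    Real.exp (-(q : ℝ) / 10 ^ 16) * Fintype.card (V → Col d)

/-- the bad event at `v` -/
def Bad {V : Type} [Fintype V] (G : SimpleGraph V) (d q : ℕ) (𝒞 : Finset (Finset V))
    (U : Finset V → Finset V) (X : Finset V → V → Finset V) (v : V) (c : V → Col d) : Prop :=
  12 * q < ((nb G v).filter (fun w => act c w)).card ∨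
  (q ^ 2 ≤ sp G v ∧ Out G q (nb G v) c ∧ fv G c v < 2) ∨
  ∃ C ∈ 𝒞, v ∈ C ∧ Out G q (T0 C (U C) (X C)) c ∧ gC G C (U C) (X C) c < 2

/-- balls -/
noncomputable def ball {V : Type} [Fintype V] (G : SimpleGraph V) (v : V) : ℕ → Finset V
  | 0 => {v}
  | n + 1 => (ball G v n).biUnion (fun w => insert w (nb G w))

/-- [BAL] `|ball v n| ≤ (d+1)^n`, and only the `w ∈ ball v 6` have balls of radius 3 meeting `ball v 3`. -/
def S_BAL : Prop := ∀ (V : Type) [Fintype V] (G : SimpleGraph V) (d : ℕ), (∀ v, (nb G v).card ≤ d) → ∀ v : V,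
  (Finset.univ.filter (fun w => ¬ Disjoint (ball G v 3) (ball G w 3))).card ≤ (d + 1) ^ 6

/-- [DEP] the bad event at `v` depends only on the colours in the ball of radius 3. -/
def S_DEP : Prop := ∀ (V : Type) [Fintype V] (G : SimpleGraph V) (d q : ℕ) (𝒞 : Finset (Finset V))
    (U : Finset V → Finset V) (X : Finset V → V → Finset V), Str V G d q 𝒞 U X → ∀ v : V,
  Pool.Agent.Helper635.LLL.DependsOn (Bad G d q 𝒞 U X v) (ball G v 3)

/-- [RND] the local lemma (`Pool.Agent.Helper635.LLL.lll`) gives a colouring without bad events, for all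
large `q`: `4 · 3 exp(-q/10^16) · (100q+1)^6 ≤ 1`. -/
def S_RND : Prop := S_MCD → S_CND → S_PRD → S_BLK → S_LI2 → S_LI3 → S_EX2 → S_X1 → S_X2 → S_EX3a → S_EX3 →
  S_PE1 → S_PE2 → S_PE3 →
  S_BAL → S_DEP → ∃ q₀ : ℕ, 10 ^ 6 ≤ q₀ ∧ ∀ q, q₀ ≤ q → ∀ (V : Type) [Fintype V] (G : SimpleGraph V) (d : ℕ)
    (𝒞 : Finset (Finset V)) (U : Finset V → Finset V) (X : Finset V → V → Finset V), d = 100 * q →
    Str V G d q 𝒞 U X → ∃ c : V → Col d, ∀ v, ¬ Bad G d q 𝒞 U X v c

/-- [SA2] a colour kept by two neighbours saves: if `2 ≤ fv` then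
`|c(nb v ∩ RA)| + 2 ≤ |nb v ∩ RA|`. -/
def S_SA2 : Prop := ∀ (V : Type) [Fintype V] (G : SimpleGraph V) (d : ℕ) (c : V → Col d) (v : V),
  2 ≤ fv G c v → ((nb G v ∩ RA G c).image (fun w => (c w : ℕ))).card + 2 ≤ (nb G v ∩ RA G c).card

/-- [SA3] if `2 ≤ gC` then two vertices of `C` without kept colour have saved enough.  `u ∈ U` without real colour and all
`x ∈ X u` successful with partners `u'_x ∈ C`: all `x` and `u'_x` keep their colours, `u'_x ∉ X u`, both are
neighbours of `u`, so `|c(nb u ∩ RA)| ≤ |nb u ∩ RA| - |X u|`, and `|nb u| - |X u| = d - 2`. -/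
def S_SA3 : Prop := ∀ (V : Type) [Fintype V] (G : SimpleGraph V) (d q : ℕ) (C U : Finset V) (X : V → Finset V)
    (c : V → Col d), CData G d q C U X → 2 ≤ gC G C U X c →
  ∃ u₁ ∈ C, ∃ u₂ ∈ C, u₁ ≠ u₂ ∧ ∀ u, u = u₁ ∨ u = u₂ → u ∉ RA G c ∧
    ((nb G u ∩ RA G c).image (fun w => (c w : ℕ))).card + (nb G u \ RA G c).card + 2 ≤ d

/-- [CON] conclusion: a structure and a colouring without bad events give a `(d-1)`-colouring, by [EXT] with `A = RA`,
`f v = 2` if `v` is good (`|c(nb v ∩ RA)| + |nb v \ RA| + 2 ≤ d`), `f v = 1` if `v ∈ C ∈ 𝒞` is not good, `0`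
otherwise.  Good: nothing to show.  `v ∈ C` not good, `v ∉ RA`: the two good vertices of `C` ([SA3]).  `v` in no `C`, not good:
not sparse by [SA2], so it has at least `d - 2q - 3` neighbours in some `C`, at most `12 q` of them in
`RA` (¬ first alternative of `Bad`), so at least two with `f ≥ 1`. -/
def S_CON : Prop := S_EXT → S_SA2 → S_SA3 → ∀ (V : Type) [Fintype V] (G : SimpleGraph V) (d q : ℕ)
    (𝒞 : Finset (Finset V)) (U : Finset V → Finset V) (X : Finset V → V → Finset V), 10 ≤ q → d = 100 * q →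
    Str V G d q 𝒞 U X → ∀ c : V → Col d, (∀ v, ¬ Bad G d q 𝒞 U X v c) → G.Colorable (d - 1)

/-- the theorem -/
def S_MAIN : Prop := ∃ d : ℕ, 4 ≤ d ∧ ∀ (V : Type) [Fintype V] (G : SimpleGraph V),
  (∀ v, (nb G v).card ≤ d) → G.CliqueFree (d - 1) → G.Colorable (d - 1)

end Pool.Agent.Helper31K9.RT
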